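import Pool.Agent.helper48.AGR.Spec

/-!
# Row ag:PM (MP_def0df_al)
-/

set_option autoImplicit false

namespace Pool.Agent.AGR

open Monoid Function

theorem PM : PM_stmt := by
  intro X _ w J π h hc
  have c1 : ∀ a j, Commute ((W.g : X →* W w J) (w a)) (W.g (h j) * W.y (π j)) := by
    intro a j
    refine Commute.mul_right ?_ (W.comm a (π j))
    exact ((hc j a).symm).map (W.g : X →* W w J)
  have c2 : ∀ a j, Commute ((W.g : X →* W w J) (w a))
      ((W.g (h (π.symm j)))⁻¹ * W.y (π.symm j)) := by
    intro a j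
    refine Commute.mul_right ?_ (W.comm a (π.symm j))
    exact (((hc (π.symm j) a).symm).map (W.g : X →* W w J)).inv_right
  have hF : ((W.lift (v := w) W.g (fun j => (W.g (h (π.symm j)))⁻¹ * W.y (π.symm j)) c2).comp
      (W.lift (v := w) W.g (fun j => W.g (h j) * W.y (π j)) c1)) = MonoidHom.id (W w J) := by
    apply W.hom_ext
    · intro x
      simp
    · intro j
      rw [MonoidHom.comp_apply, W.lift_y, map_mul, W.lift_g, W.lift_y, π.symm_apply_apply]
      simp
  refine ⟨W.lift (v := w) W.g (fun j => W.g (h j) * W.y (π j)) c1, ?_, ?_, ?_⟩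
  · apply LeftInverse.injective
    · intro x
      exact DFunLike.congr_fun hF x
  · intro x
    exact W.lift_g _ _ _ x
  · intro j
    exact W.lift_y _ _ _ j

end Pool.Agent.AGR
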